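import Pool.Agent.Helper53.PT.GoalsB

/-!
# MP_705522_gt, `q ∈ (2,4)`: packet PT-KR (the kernel)
-/

namespace Pool.Agent.Helper5.PT

open MeasureTheory Set Filter Topology
open Pool.Agent.Helper53.PT

theorem f1_m_nonneg {θ z m xW xD yN : ℝ} (hF : FA θ z m xW xD yN) : 0 ≤ f1 θ m := by
  have h0 : 0 < θ := by linarith [hF.th0]
  have hc : Continuous (f1 θ) := continuous_f1 h0 hF.th1
  have hm : 0 < m := lt_trans hF.z0 hF.zm
  have ht : Tendsto (f1 θ) (𝓝[<] m) (𝓝 (f1 θ m)) := (hc.tendsto m).mono_left nhdsWithin_le_nhds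
  refine ge_of_tendsto ht ?_
  have hI : Ioo 0 m ∈ 𝓝[<] m := Ioo_mem_nhdsLT hm
  filter_upwards [hI] with x hx
  exact (hF.s1 x hx.1.le hx.2).le

theorem gKR : GKR := by
  intro hRL θ z m xW xD yN hF
  obtain ⟨r1, r2, r3, r4, r5, r6, r7, -⟩ := hRL θ z m xW xD yN hF
  have h0 : 0 < θ := by linarith [hF.th0]
  have hz := hF.z0
  have hf0pos : ∀ y, 0 ≤ y → y ≤ z → 0 ≤ f0 θ y := by
    intro y hy hyz
    rcases eq_or_lt_of_le hyz with h | h
    · rw [h, hF.fz]
    · exact (r2 y hy h).le
  have hf0neg : ∀ x, z ≤ x → x ≤ yN → f0 θ x ≤ 0 := by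
    intro x hx hxN
    rcases eq_or_lt_of_le hx with h | h
    · rw [← h, hF.fz]
    · exact (r3 x h hxN).le
  have hkr : ∀ x y, f0 θ x ≠ 0 → f0 θ y ≠ 0 →
      kr θ x y = f0 θ x * f0 θ y * (rr θ x - rr θ y) := by
    intro x y hx hy
    unfold kr rr
    field_simp
  have hdec : ∀ x y, kr θ x y = f1 θ x * (f0 θ y - f0 θ x) - f0 θ x * (f1 θ y - f1 θ x) := by
    intro x y
    unfold kr
    ring
  refine ⟨?_, ?_, ?_, ?_, ?_⟩
  · intro x y hy hyx hxz
    have hx : 0 ≤ x := le_trans hy hyx.le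
    have hfx := r2 x hx hxz
    have hfy := r2 y hy (lt_trans hyx hxz)
    have he := hkr x y hfx.ne' hfy.ne'
    refine ⟨he, ?_⟩
    rw [he]
    have := r6 (⟨hy, lt_trans hyx hxz⟩ : y ∈ Ico 0 z) (⟨hx, hxz⟩ : x ∈ Ico 0 z) hyx
    exact mul_pos (mul_pos hfx hfy) (by linarith)
  · intro x y hy hyz hzx hxD
    have e : kr θ x y = (f1 θ x - f0 θ x) * f0 θ y + f0 θ x * (f0 θ y - f1 θ y) := by
      unfold kr
      ring
    rw [e]
    have hx0 : 0 < x := lt_of_lt_of_le hz hzx
    have a1 := r4 x hx0 hxD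
    have a2 := hf0pos y hy hyz
    have a3 := hf0neg x hzx (le_trans hxD hF.DN)
    have a4 : f0 θ y - f1 θ y ≤ 0 := by
      rcases eq_or_lt_of_le hy with h | h
      · rw [← h, f0_zero h0 hF.th1, f1_zero h0 hF.th1]
        norm_num
      · have := r4 y h (le_trans hyz hF.zD)
        linarith
    have b1 := mul_nonneg (by linarith : (0 : ℝ) ≤ f1 θ x - f0 θ x) a2
    have b2 := mul_nonneg_of_nonpos_of_nonpos a3 a4
    linarith
  · intro x y hzy hyx hxW
    have hx := hf0neg x (le_trans hzy hyx) (le_trans hxW hF.WN)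
    rcases eq_or_lt_of_le hzy with h | h
    · have e : kr θ x y = (-f0 θ x) * f1 θ z := by
        unfold kr
        rw [← h, hF.fz]
        ring
      rw [e]
      exact mul_nonneg (by linarith) (hF.s1 z hz.le hF.zm).le
    · have hfx := r3 x (lt_of_lt_of_le h hyx) (le_trans hxW hF.WN)
      have hfy := r3 y h (le_trans (le_trans hyx hxW) hF.WN)
      rw [hkr x y hfx.ne hfy.ne]
      have hmon := r7.monotoneOn (⟨h, le_trans hyx hxW⟩ : y ∈ Ioc z xW)
        (⟨lt_of_lt_of_le h hyx, hxW⟩ : x ∈ Ioc z xW) hyx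
      exact mul_nonneg (mul_pos_of_neg_of_neg hfx hfy).le (by linarith)
  · intro x y A1 A2 F u1 hy hyx hA1 hA2 hd0 hd1 hF0 hu
    rw [hdec]
    have hxy : 0 ≤ x - y := by linarith
    have t1 : |f1 θ x * (f0 θ y - f0 θ x)| ≤ u1 * (A1 / 2 * (x - y)) := by
      rw [abs_mul]
      exact mul_le_mul hu hd0 (abs_nonneg _) (le_trans (abs_nonneg _) hu)
    have t2 : |f0 θ x * (f1 θ y - f1 θ x)| ≤ F * (A2 * (x - y)) := by
      rw [abs_mul]
      exact mul_le_mul hF0 hd1 (abs_nonneg _) (le_trans (abs_nonneg _) hF0)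
    calc |f1 θ x * (f0 θ y - f0 θ x) - f0 θ x * (f1 θ y - f1 θ x)|
        ≤ |f1 θ x * (f0 θ y - f0 θ x)| + |f0 θ x * (f1 θ y - f1 θ x)| := abs_sub _ _
      _ ≤ u1 * (A1 / 2 * (x - y)) + F * (A2 * (x - y)) := add_le_add t1 t2
      _ = (u1 * A1 / 2 + F * A2) * (x - y) := by ring
  · intro x y A1 A2 F u1 V hy hyx hzx hxN hA1 hA2 hu1 hV hd0 hd1 hF0 hu hcase
    rw [hdec]
    have hxy : 0 ≤ x - y := by linarith
    have hx0 : 0 ≤ x := le_trans hy hyx.le
    have t2 : -(f0 θ x * (f1 θ y - f1 θ x)) ≤ F * (A2 * (x - y)) := by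
      have : |f0 θ x * (f1 θ y - f1 θ x)| ≤ F * (A2 * (x - y)) := by
        rw [abs_mul]
        exact mul_le_mul hF0 hd1 (abs_nonneg _) (le_trans (abs_nonneg _) hF0)
      exact le_trans (neg_le_abs _) this
    have hpos : 0 ≤ u1 * (A1 / 2 * (x - y)) := by positivity
    have t1 : f1 θ x * (f0 θ y - f0 θ x) ≤
        (u1 * A1 / 2 + (if y ≤ z ∨ x ≤ m then 0 else V ^ 2 / 2)) * (x - y) := by
      by_cases hs : 0 ≤ f1 θ x
      · have a : f1 θ x * (f0 θ y - f0 θ x) ≤ u1 * (A1 / 2 * (x - y)) := by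
          calc f1 θ x * (f0 θ y - f0 θ x) ≤ f1 θ x * |f0 θ y - f0 θ x| :=
                mul_le_mul_of_nonneg_left (le_abs_self _) hs
            _ ≤ u1 * (A1 / 2 * (x - y)) := mul_le_mul hu hd0 (abs_nonneg _) hu1
        split_ifs
        · nlinarith
        · have : 0 ≤ V ^ 2 / 2 * (x - y) := by positivity
          nlinarith
      · push Not at hs
        have hxm : m < x := by
          by_contra hcon
          push Not at hcon
          rcases eq_or_lt_of_le hcon with h | h
          · have := f1_m_nonneg hF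
            rw [← h] at this
            linarith
          · have := hF.s1 x hx0 h
            linarith
        by_cases hyz : y ≤ z
        · rw [if_pos (Or.inl hyz)]
          have a2 := hf0pos y hy hyz
          have a3 := hf0neg x hzx hxN
          have := mul_nonpos_of_nonpos_of_nonneg hs.le (by linarith : 0 ≤ f0 θ y - f0 θ x)
          nlinarith
        · have hno : ¬ (y ≤ z ∨ x ≤ m) := by
            rintro (h | h)
            · exact hyz h
            · linarith
          rw [if_neg hno]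
          have hVb : ∀ x', m ≤ x' → |f1 θ x'| ≤ V := by
            rcases hcase with h | h | h
            · exact absurd h hyz
            · linarith
            · exact h
          have hcont : ContinuousOn (f0 θ) (Icc y x) := (continuous_f0 h0 hF.th1).continuousOn
          obtain ⟨c, hc, hce⟩ := exists_hasDerivAt_eq_slope (f0 θ) (fun x => -(f1 θ x) / 2) hyx hcont
            (fun x _ => hasDerivAt_f0 h0 hF.th1 x)
          have hc1 : -(f1 θ c) ≤ V := by
            by_cases hcm : m ≤ c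
            · exact le_trans (neg_le_abs _) (hVb c hcm)
            · push Not at hcm
              have := hF.s1 c (le_trans hy hc.1.le) hcm
              linarith
          have hxy' : 0 < x - y := by linarith
          have hd : f0 θ x - f0 θ y ≤ V / 2 * (x - y) := by
            rw [eq_div_iff hxy'.ne'] at hce
            rw [← hce]
            exact mul_le_mul_of_nonneg_right (by linarith) hxy
          have hVx : -(f1 θ x) ≤ V := le_trans (neg_le_abs _) (hVb x hxm.le)
          have : f1 θ x * (f0 θ y - f0 θ x) ≤ V ^ 2 / 2 * (x - y) := by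
            have e : f1 θ x * (f0 θ y - f0 θ x) = (-(f1 θ x)) * (f0 θ x - f0 θ y) := by ring
            rw [e]
            have : (-(f1 θ x)) * (f0 θ x - f0 θ y) ≤ (-(f1 θ x)) * (V / 2 * (x - y)) :=
              mul_le_mul_of_nonneg_left hd (by linarith)
            have h2 : (-(f1 θ x)) * (V / 2 * (x - y)) ≤ V * (V / 2 * (x - y)) :=
              mul_le_mul_of_nonneg_right hVx (by positivity)
            calc _ ≤ _ := this
              _ ≤ _ := h2
              _ = V ^ 2 / 2 * (x - y) := by ring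
          nlinarith
    have : (u1 * A1 / 2 + F * A2 + (if y ≤ z ∨ x ≤ m then 0 else V ^ 2 / 2)) * (x - y) =
        (u1 * A1 / 2 + (if y ≤ z ∨ x ≤ m then 0 else V ^ 2 / 2)) * (x - y) + F * (A2 * (x - y)) := by
      ring
    rw [this]
    linarith

end Pool.Agent.Helper5.PT
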