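import Pool.Agent.Helper53.PT.GoalsD

/-!
# Packet PT-XI (MP_705522_gt): the nodes are increasing
-/

set_option autoImplicit false

namespace Pool.Agent.Helper5.PT

open Pool.Agent.Helper53.PT

theorem cond_ble (a b x y : ℕ) : cond (Nat.ble a b) x y = if a ≤ b then x else y := by
  by_cases h : a ≤ b
  · rw [if_pos h, Nat.ble_eq_true_of_le h]
    rfl
  · rw [if_neg h]
    have : Nat.ble a b = false := by
      by_contra h2
      exact h (Nat.le_of_ble_eq_true (by simpa using h2))
    rw [this]
    rfl

theorem xiN_eq (md k : ℕ) : N.xiN md k = if md = 0 then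
    (if k ≤ 40 then k else if k ≤ 52 then 2 * (k - 20) else if k ≤ 68 then 4 * (k - 36)
      else if k ≤ 76 then 16 * (k - 60) else 32 * (k - 68))
    else (if k ≤ 64 then k else if k ≤ 80 then 2 * (k - 32) else if k ≤ 88 then 4 * (k - 56)
      else if k ≤ 96 then 16 * (k - 80) else 32 * (k - 88)) := by
  unfold N.xiN
  simp only [cond_ble]
  by_cases h : md = 0
  · subst h
    rfl
  · rw [if_neg h]
    have : Nat.beq md 0 = false := by
      cases md with
      | zero => exact absurd rfl h
      | succ n => rfl
    rw [this]
    rfl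

theorem gXI : GXI := by
  intro md k
  rw [xiN_eq, xiN_eq, xiN_eq]
  constructor
  · split_ifs <;> omega
  · split_ifs <;> omega

end Pool.Agent.Helper5.PT
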